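import Pool.Agent.Q248.FF.Rec

/-!
# First Fit: the deterministic bound
-/

set_option autoImplicit false

open MeasureTheory ProbabilityTheory Filter

namespace Pool.Agent.Q248.FF

variable {d : ℕ} {v : ℕ → Fin d → ℝ}

theorem load_mono (hv : Items v) {t t' : ℕ} (h : t ≤ t') (b : ℕ) (j : Fin d) :
    load v t b j ≤ load v t' b j := by
  unfold load
  apply Finset.sum_le_sum_of_subset_of_nonneg
  · exact Finset.filter_subset_filter _ (Finset.range_subset_range.mpr h)
  · intro i _ _
    exact (hv i j).1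

/-- the region of the items which fit into one of the first `β` bins at time `t` -/
def QQ (v : ℕ → Fin d → ℝ) (β t : ℕ) : Set (Fin d → ℝ) :=
  {w | ∃ b < β, ∀ j, load v t b j + w j ≤ 1}

theorem QQ_down {β t : ℕ} {w w' : Fin d → ℝ} (h : ∀ j, w j ≤ w' j) (hw : w' ∈ QQ v β t) :
    w ∈ QQ v β t := by
  obtain ⟨b, hb, h2⟩ := hw
  exact ⟨b, hb, fun j => by linarith [h j, h2 j]⟩

theorem QQ_anti (hv : Items v) {β t t' : ℕ} (h : t ≤ t') : QQ v β t' ⊆ QQ v β t := by
  rintro w ⟨b, hb, h2⟩
  exact ⟨b, hb, fun j => by linarith [load_mono hv h b j, h2 j]⟩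

theorem assign_lt_of_mem (hv : Items v) {β i t : ℕ} (hi : i ≤ t) (h : v i ∈ QQ v β t) :
    assign v i < β := by
  obtain ⟨b, hb, h2⟩ := QQ_anti hv hi h
  by_contra hc
  push Not at hc
  obtain ⟨j, hj⟩ := (t_REC d v hv).2.1 i b (by omega)
  linarith [h2 j]

open Classical in
/-- cells inside the region -/
noncomputable def InS (v : ℕ → Fin d → ℝ) (H β t : ℕ) : Finset (Fin d → Fin H) :=
  Finset.univ.filter (fun a => (fun j => (((a j : ℕ) : ℝ) + 1) / H) ∈ QQ v β t)

open Classical in
/-- cells meeting the region -/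
noncomputable def OutS (v : ℕ → Fin d → ℝ) (H β t : ℕ) : Finset (Fin d → Fin H) :=
  Finset.univ.filter (fun a => (fun j => ((a j : ℕ) : ℝ) / H) ∈ QQ v β t)

theorem mem_InS {H β t : ℕ} {a : Fin d → Fin H} :
    a ∈ InS v H β t ↔ (fun j => (((a j : ℕ) : ℝ) + 1) / H) ∈ QQ v β t := by
  simp [InS]

theorem mem_OutS {H β t : ℕ} {a : Fin d → Fin H} :
    a ∈ OutS v H β t ↔ (fun j => ((a j : ℕ) : ℝ) / H) ∈ QQ v β t := by
  simp [OutS]

/-- the boundary cells are few -/
theorem card_Out_le {H : ℕ} (hH : 0 < H) (β t : ℕ) :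
    ((OutS v H β t).card : ℝ) ≤ (InS v H β t).card + d * (H : ℝ) ^ d / H := by
  classical
  have hHr : (0 : ℝ) < H := by exact_mod_cast hH
  rcases d with _ | d
  · have : OutS v H β t = InS v H β t := by
      ext a
      rw [mem_InS, mem_OutS]
      have : (fun j => ((a j : ℕ) : ℝ) / (H : ℝ)) = (fun j => (((a j : ℕ) : ℝ) + 1) / (H : ℝ)) := by
        ext j
        exact j.elim0
      rw [this]
    rw [this]
    simp
  · -- the diagonal projection
    let mn : (Fin (d + 1) → Fin H) → ℕ := fun a =>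
      Finset.univ.inf' ⟨0, Finset.mem_univ _⟩ (fun j => ((a j : Fin H) : ℕ))
    have hmn : ∀ a j, mn a ≤ (a j : ℕ) := fun a j => Finset.inf'_le _ (Finset.mem_univ j)
    have hmn2 : ∀ a, ∃ j, mn a = (a j : ℕ) := by
      intro a
      obtain ⟨j, _, hj⟩ := Finset.exists_mem_eq_inf' (s := (Finset.univ : Finset (Fin (d + 1))))
        ⟨0, Finset.mem_univ _⟩ (fun j => ((a j : Fin H) : ℕ))
      exact ⟨j, hj⟩
    let φ : (Fin (d + 1) → Fin H) → (Fin (d + 1) → Fin H) := fun a j =>
      ⟨(a j : ℕ) - mn a, lt_of_le_of_lt (Nat.sub_le _ _) (a j).2⟩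
    let Z : Finset (Fin (d + 1) → Fin H) := Finset.univ.biUnion (fun j =>
      Fintype.piFinset (fun i => if i = j then {⟨0, hH⟩} else Finset.univ))
    have hZ : Z.card ≤ (d + 1) * H ^ d := by
      refine le_trans Finset.card_biUnion_le ?_
      have h1 : ∀ j ∈ (Finset.univ : Finset (Fin (d + 1))),
          (Fintype.piFinset (fun i => if i = j then ({⟨0, hH⟩} : Finset (Fin H)) else Finset.univ)).card
            = H ^ d := by
        intro j _
        rw [Fintype.card_piFinset, ← Finset.mul_prod_erase _ _ (Finset.mem_univ j)]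
        rw [if_pos rfl, Finset.card_singleton, one_mul]
        rw [Finset.prod_congr rfl (g := fun _ => H)]
        · rw [Finset.prod_const, Finset.card_erase_of_mem (Finset.mem_univ j)]
          simp
        · intro i hi
          rw [if_neg (Finset.ne_of_mem_erase hi)]
          simp
      rw [Finset.sum_congr rfl h1]
      simp
    have hsub : (OutS v H β t \ InS v H β t).card ≤ Z.card := by
      apply Finset.card_le_card_of_injOn φ
      · intro a _
        obtain ⟨j, hj⟩ := hmn2 a
        simp only [Z, Finset.coe_biUnion, Set.mem_iUnion, Finset.mem_coe, Fintype.mem_piFinset]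
        refine ⟨j, Finset.mem_univ j, ?_⟩
        intro i
        by_cases hij : i = j
        · rw [if_pos hij]
          subst hij
          simp only [Finset.mem_singleton, φ]
          ext
          simp only
          omega
        · rw [if_neg hij]
          exact Finset.mem_univ _
      · -- injectivity
        have key : ∀ a b : Fin (d + 1) → Fin H, a ∈ OutS v H β t \ InS v H β t →
            b ∈ OutS v H β t \ InS v H β t → φ a = φ b → mn a ≤ mn b → a = b := by
          intro a b ha hb hab hle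
          have h1 : ∀ j, (b j : ℕ) = (a j : ℕ) + (mn b - mn a) := by
            intro j
            have := congrArg (fun f => ((f j : Fin H) : ℕ)) hab
            simp only [φ] at this
            have h2 := hmn a j
            have h3 := hmn b j
            omega
          rcases Nat.eq_zero_or_pos (mn b - mn a) with h0 | h0
          · ext j
            rw [h1 j, h0, add_zero]
          · exfalso
            rw [Finset.mem_sdiff] at ha hb
            apply ha.2
            rw [mem_InS]
            refine QQ_down ?_ (mem_OutS.mp hb.1)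
            intro j
            apply div_le_div_of_nonneg_right _ hHr.le
            have : (a j : ℕ) + 1 ≤ (b j : ℕ) := by rw [h1 j]; omega
            exact_mod_cast this
        intro a ha b hb hab
        rcases le_total (mn a) (mn b) with h | h
        · exact key a b ha hb hab h
        · exact (key b a hb ha hab.symm h).symm
    have h3 : (OutS v H β t).card ≤ (InS v H β t).card + (d + 1) * H ^ d := by
      have h4 : (OutS v H β t).card ≤ (InS v H β t).card + (OutS v H β t \ InS v H β t).card := by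
        calc (OutS v H β t).card ≤ ((OutS v H β t \ InS v H β t) ∪ InS v H β t).card := by
              apply Finset.card_le_card
              intro x hx
              by_cases h : x ∈ InS v H β t
              · exact Finset.mem_union_right _ h
              · exact Finset.mem_union_left _ (Finset.mem_sdiff.mpr ⟨hx, h⟩)
          _ ≤ (OutS v H β t \ InS v H β t).card + (InS v H β t).card := Finset.card_union_le _ _
          _ = _ := Nat.add_comm _ _
      omega
    have h5 : (((d + 1 : ℕ) : ℝ)) * (H : ℝ) ^ (d + 1) / H = (d + 1) * (H : ℝ) ^ d := by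
      rw [pow_succ]
      field_simp
      push_cast
      ring
    rw [h5]
    exact_mod_cast h3

theorem floor_lt_of_items (hv : Items v) {H : ℕ} (hH : 0 < H) (i : ℕ) (j : Fin d) :
    ⌊(H : ℝ) * v i j⌋₊ < H := by
  have hHr : (0 : ℝ) < H := by exact_mod_cast hH
  rw [Nat.floor_lt (mul_nonneg hHr.le (hv i j).1)]
  nlinarith [(hv i j).2]

/-- the cell of an item -/
noncomputable def cell (hv : Items v) {H : ℕ} (hH : 0 < H) (i : ℕ) : Fin d → Fin H :=
  fun j => ⟨⌊(H : ℝ) * v i j⌋₊, floor_lt_of_items hv hH i j⟩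

/-- the `k`-th window -/
def win (L k : ℕ) : Finset ℕ := Finset.Ico (k * L) ((k + 1) * L)

theorem card_win (L k : ℕ) : (win L k).card = L := by
  rw [win, Nat.card_Ico]
  have : (k + 1) * L = k * L + L := by ring
  omega

theorem cell_eq_iff (hv : Items v) {H : ℕ} (hH : 0 < H) (i : ℕ) (a : Fin d → Fin H) :
    cell hv hH i = a ↔ ∀ j, ((a j : ℕ) : ℝ) ≤ H * v i j ∧ H * v i j < ((a j : ℕ) : ℝ) + 1 := by
  have hHr : (0 : ℝ) < H := by exact_mod_cast hH
  constructor
  · intro h j
    have h1 : ⌊(H : ℝ) * v i j⌋₊ = (a j : ℕ) := by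
      rw [← h]; rfl
    rwa [Nat.floor_eq_iff (mul_nonneg hHr.le (hv i j).1)] at h1
  · intro h
    ext j
    have h1 : ⌊(H : ℝ) * v i j⌋₊ = (a j : ℕ) := by
      rw [Nat.floor_eq_iff (mul_nonneg hHr.le (hv i j).1)]
      exact h j
    exact h1

theorem sum_NN (hv : Items v) {H : ℕ} (hH : 0 < H) (L k : ℕ) (S : Finset (Fin d → Fin H)) :
    ∑ a ∈ S, NN H L v k a = ((win L k).filter (fun i => cell hv hH i ∈ S)).card := by
  classical
  rw [Finset.card_eq_sum_card_fiberwise (f := cell hv hH) (t := S)]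
  · apply Finset.sum_congr rfl
    intro a ha
    rw [NN, Finset.filter_filter]
    congr 1
    ext i
    simp only [Finset.mem_filter, win]
    rw [← cell_eq_iff hv hH i a]
    constructor
    · rintro ⟨h1, h2⟩
      exact ⟨h1, by rw [h2]; exact ha, h2⟩
    · rintro ⟨h1, _, h2⟩
      exact ⟨h1, h2⟩
  · intro i hi
    exact (Finset.mem_filter.mp hi).2

theorem cell_le (hv : Items v) {H : ℕ} (hH : 0 < H) (i : ℕ) (j : Fin d) :
    ((cell hv hH i j : ℕ) : ℝ) / H ≤ v i j ∧ v i j < (((cell hv hH i j : ℕ) : ℝ) + 1) / H := by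
  have hHr : (0 : ℝ) < H := by exact_mod_cast hH
  have := (cell_eq_iff hv hH i (cell hv hH i)).mp rfl j
  constructor
  · rw [div_le_iff₀ hHr]; linarith [this.1]
  · rw [lt_div_iff₀ hHr]; linarith [this.2]

theorem ff_mono (hv : Items v) : Monotone (ff v) := by
  intro s t h
  unfold ff
  exact Finset.card_le_card (Finset.image_subset_image (Finset.range_subset_range.mpr h))

theorem ff_add_le (v : ℕ → Fin d → ℝ) (t s : ℕ) : ff v (t + s) ≤ ff v t + s := by
  induction s with
  | zero => simp
  | succ s ih =>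
    have : ff v (t + (s + 1)) ≤ ff v (t + s) + 1 := by
      unfold ff
      rw [← add_assoc, Finset.range_add_one, Finset.image_insert]
      exact Finset.card_insert_le _ _
    omega

theorem mem_image_iff (hv : Items v) (t b : ℕ) :
    (∃ i < t, assign v i = b) ↔ b < ff v t := by
  have h := (t_REC d v hv).2.2 t
  rw [← Finset.mem_range, ← h, Finset.mem_image]
  simp only [Finset.mem_range]

/-- the bins opened in window `k` -/
noncomputable def WW (v : ℕ → Fin d → ℝ) (L k : ℕ) : Finset ℕ :=
  Finset.Ico (ff v (k * L)) (ff v ((k + 1) * L))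

/-- number of items in bin `b` at time `T` -/
noncomputable def cnt (v : ℕ → Fin d → ℝ) (T b : ℕ) : ℕ :=
  ((Finset.range T).filter (fun i => assign v i = b)).card

theorem exists_opener (hv : Items v) {L k b : ℕ} (hb : b ∈ WW v L k) :
    ∃ i ∈ win L k, assign v i = b := by
  rw [WW, Finset.mem_Ico] at hb
  obtain ⟨i, hi, hib⟩ := (mem_image_iff hv _ b).mpr hb.2
  refine ⟨i, ?_, hib⟩
  rw [win, Finset.mem_Ico]
  refine ⟨?_, hi⟩
  by_contra hc
  push Not at hc
  have := (mem_image_iff hv _ b).mp ⟨i, hc, hib⟩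
  omega

theorem single_bound (hv : Items v) {H : ℕ} (hH : 0 < H) (L k T : ℕ) (hT : (k + 1) * L ≤ T) :
    ((WW v L k).filter (fun b => cnt v T b = 1)).card ≤
      ((win L k).filter (fun i => (fun j => Fin.rev (cell hv hH i j)) ∈
        OutS v H (ff v ((k + 1) * L)) T)).card := by
  classical
  have hHr : (0 : ℝ) < H := by exact_mod_cast hH
  refine le_trans (Finset.card_le_card ?_) (Finset.card_image_le (f := assign v))
  intro b hb
  rw [Finset.mem_filter] at hb
  obtain ⟨i, hi, hib⟩ := exists_opener hv hb.1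
  rw [Finset.mem_image]
  refine ⟨i, Finset.mem_filter.mpr ⟨hi, ?_⟩, hib⟩
  rw [mem_OutS]
  refine ⟨b, (Finset.mem_Ico.mp hb.1).2, ?_⟩
  intro j
  have hload : load v T b j = v i j := by
    have h1 : (Finset.range T).filter (fun i => assign v i = b) = {i} := by
      obtain ⟨x, hx⟩ := Finset.card_eq_one.mp hb.2
      have : i ∈ (Finset.range T).filter (fun i => assign v i = b) := by
        rw [Finset.mem_filter, Finset.mem_range]
        have := (Finset.mem_Ico.mp hi).2
        exact ⟨by omega, hib⟩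
      rw [hx, Finset.mem_singleton] at this
      rw [hx, this]
    rw [load, h1, Finset.sum_singleton]
  rw [hload]
  have h2 := (cell_le hv hH i j).2
  rw [lt_div_iff₀ hHr] at h2
  simp only [Fin.val_rev]
  have h3 : ((cell hv hH i j : ℕ)) + 1 ≤ H := (cell hv hH i j).2
  rw [Nat.cast_sub h3]
  push_cast
  have h4 : ((H : ℝ) - ((cell hv hH i j : ℕ) + 1)) / H = 1 - ((cell hv hH i j : ℕ) + 1) / H := by
    field_simp
  rw [h4]
  have h5 := (cell_le hv hH i j).2
  linarith

theorem two_mul_card_le (hv : Items v) (L k T : ℕ) (hT : (k + 1) * L ≤ T) :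
    2 * (WW v L k).card ≤ ∑ b ∈ WW v L k, cnt v T b +
      ((WW v L k).filter (fun b => cnt v T b = 1)).card := by
  classical
  rw [Finset.card_filter, ← Finset.sum_add_distrib, mul_comm, ← smul_eq_mul,
    ← Finset.sum_const]
  apply Finset.sum_le_sum
  intro b hb
  obtain ⟨i, hi, hib⟩ := exists_opener hv hb
  have h1 : 1 ≤ cnt v T b := by
    rw [cnt, Nat.one_le_iff_ne_zero, Finset.card_ne_zero]
    refine ⟨i, ?_⟩
    rw [Finset.mem_filter, Finset.mem_range]
    have := (Finset.mem_Ico.mp hi).2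
    exact ⟨by omega, hib⟩
  split_ifs with h
  · omega
  · omega

theorem sum_cnt_eq (v : ℕ → Fin d → ℝ) (L k T : ℕ) :
    ∑ b ∈ WW v L k, cnt v T b =
      ((Finset.range T).filter (fun i => assign v i ∈ WW v L k)).card := by
  classical
  rw [Finset.card_eq_sum_card_fiberwise (f := assign v) (t := WW v L k)]
  · apply Finset.sum_congr rfl
    intro b hb
    rw [cnt, Finset.filter_filter]
    congr 1
    ext i
    simp only [Finset.mem_filter]
    constructor
    · rintro ⟨h1, h2⟩
      exact ⟨h1, by rw [h2]; exact hb, h2⟩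
    · rintro ⟨h1, _, h2⟩
      exact ⟨h1, h2⟩
  · intro i hi
    exact (Finset.mem_filter.mp hi).2

theorem sum_sum_cnt_le (hv : Items v) (L m R : ℕ) :
    ∑ k ∈ Finset.range R, ∑ b ∈ WW v L k, cnt v ((k + 1 + m) * L) b ≤
      ∑ j ∈ Finset.range (m + R), ((win L j).filter (fun i => ff v ((j - m) * L) ≤ assign v i)).card := by
  classical
  simp_rw [sum_cnt_eq]
  rw [← Finset.card_biUnion]
  · refine le_trans (Finset.card_le_card ?_) Finset.card_biUnion_le
    intro i hi
    rw [Finset.mem_biUnion] at hi ⊢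
    obtain ⟨k, hk, hi⟩ := hi
    rw [Finset.mem_filter, Finset.mem_range, WW, Finset.mem_Ico] at hi
    rw [Finset.mem_range] at hk
    have hL : 0 < L := by
      rcases Nat.eq_zero_or_pos L with h | h
      · rw [h] at hi; omega
      · exact h
    refine ⟨i / L, ?_, ?_⟩
    · rw [Finset.mem_range]
      have : i / L < k + 1 + m := (Nat.div_lt_iff_lt_mul hL).mpr hi.1
      omega
    · rw [Finset.mem_filter, win, Finset.mem_Ico]
      refine ⟨⟨Nat.div_mul_le_self i L, ?_⟩, ?_⟩
      · rw [add_mul, one_mul]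
        exact Nat.lt_div_mul_add hL
      · have : i / L < k + 1 + m := (Nat.div_lt_iff_lt_mul hL).mpr hi.1
        refine le_trans (ff_mono hv (Nat.mul_le_mul_right L ?_)) hi.2.1
        omega
  · intro k _ l _ hkl
    rw [Function.onFun, Finset.disjoint_left]
    intro i hi hi2
    rw [Finset.mem_filter, WW, Finset.mem_Ico] at hi hi2
    rcases lt_or_gt_of_ne hkl with h | h
    · have := ff_mono hv (Nat.mul_le_mul_right L (show k + 1 ≤ l by omega))
      omega
    · have := ff_mono hv (Nat.mul_le_mul_right L (show l + 1 ≤ k by omega))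
      omega

theorem card_add_le (hv : Items v) {H : ℕ} (hH : 0 < H) (L j β : ℕ) :
    ((win L j).filter (fun i => β ≤ assign v i)).card +
      ∑ a ∈ InS v H β ((j + 1) * L), NN H L v j a ≤ L := by
  classical
  rw [sum_NN hv hH]
  conv_rhs => rw [← card_win L j]
  rw [← Finset.card_union_of_disjoint]
  · apply Finset.card_le_card
    exact Finset.union_subset (Finset.filter_subset _ _) (Finset.filter_subset _ _)
  · rw [Finset.disjoint_left]
    intro i h1 h2
    rw [Finset.mem_filter] at h1 h2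
    have h3 : i < (j + 1) * L := (Finset.mem_Ico.mp h1.1).2
    have h4 := assign_lt_of_mem hv h3.le
      (QQ_down (fun j => (cell_le hv hH i j).2.le) (mem_InS.mp h2.2))
    omega

theorem sum_NN_le {H L K : ℕ} {ε : ℝ} (hG : Good H L K ε v) {k : ℕ} (hk : k < K)
    (S : Finset (Fin d → Fin H)) :
    ((∑ a ∈ S, NN H L v k a : ℕ) : ℝ) ≤ S.card * ((1 + ε) * (L / (H : ℝ) ^ d)) := by
  push_cast
  rw [← nsmul_eq_mul, ← Finset.sum_const]
  apply Finset.sum_le_sum
  intro a _
  have := (abs_le.mp (hG k hk a)).2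
  linarith

theorem le_sum_NN {H L K : ℕ} {ε : ℝ} (hG : Good H L K ε v) {k : ℕ} (hk : k < K)
    (S : Finset (Fin d → Fin H)) :
    S.card * ((1 - ε) * (L / (H : ℝ) ^ d)) ≤ ((∑ a ∈ S, NN H L v k a : ℕ) : ℝ) := by
  push_cast
  rw [← nsmul_eq_mul, ← Finset.sum_const]
  apply Finset.sum_le_sum
  intro a _
  have := (abs_le.mp (hG k hk a)).1
  linarith

/-- the estimate for one shift `m` -/
theorem per_m (hv : Items v) {H L K : ℕ} {ε : ℝ} (hH : 0 < H) (hε : 0 ≤ ε)
    (hG : Good H L K ε v) (m R : ℕ) (hK : K = m + R) :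
    2 * (ff v (R * L) : ℝ) ≤ K * L
      + (1 + ε) * (L / (H : ℝ) ^ d) *
        ∑ k ∈ Finset.range R, ((OutS v H (ff v ((k + 1) * L)) ((k + 1 + m) * L)).card : ℝ)
      - (1 - ε) * (L / (H : ℝ) ^ d) *
        ∑ i ∈ Finset.range R, ((InS v H (ff v (i * L)) ((i + (m + 1)) * L)).card : ℝ) := by
  classical
  -- number of bins
  have h1 : (ff v (R * L) : ℝ) = ∑ k ∈ Finset.range R, ((WW v L k).card : ℝ) := by
    have h2 : ∀ k, ((WW v L k).card : ℝ) = (ff v ((k + 1) * L) : ℝ) - ff v (k * L) := by
      intro k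
      rw [WW, Nat.card_Ico, Nat.cast_sub (ff_mono hv (Nat.mul_le_mul_right L (Nat.le_succ k)))]
    simp_rw [h2]
    rw [Finset.sum_range_sub (fun k => (ff v (k * L) : ℝ))]
    have : ff v (0 * L) = 0 := by simp [ff]
    rw [this]
    simp
  -- the window bound
  have h3 : ∀ k ∈ Finset.range R, 2 * ((WW v L k).card : ℝ) ≤
      ((∑ b ∈ WW v L k, cnt v ((k + 1 + m) * L) b : ℕ) : ℝ) + (1 + ε) * (L / (H : ℝ) ^ d) *
        ((OutS v H (ff v ((k + 1) * L)) ((k + 1 + m) * L)).card : ℝ) := by
    intro k hk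
    rw [Finset.mem_range] at hk
    have hT : (k + 1) * L ≤ (k + 1 + m) * L := Nat.mul_le_mul_right L (by omega)
    have h4 := two_mul_card_le hv L k _ hT
    have h5 := single_bound hv hH L k _ hT
    have h6 := sum_NN hv hH L k (Finset.univ.filter (fun a => (fun j => Fin.rev (a j)) ∈
        OutS v H (ff v ((k + 1) * L)) ((k + 1 + m) * L)))
    have h7 := sum_NN_le hG (show k < K by omega) (Finset.univ.filter (fun a => (fun j => Fin.rev (a j)) ∈
        OutS v H (ff v ((k + 1) * L)) ((k + 1 + m) * L)))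
    have h8 : (Finset.univ.filter (fun a : Fin d → Fin H => (fun j => Fin.rev (a j)) ∈
        OutS v H (ff v ((k + 1) * L)) ((k + 1 + m) * L))).card ≤
        (OutS v H (ff v ((k + 1) * L)) ((k + 1 + m) * L)).card := by
      apply Finset.card_le_card_of_injOn (fun a j => Fin.rev (a j))
      · intro a ha
        exact (Finset.mem_filter.mp ha).2
      · intro a _ b _ hab
        ext j
        have := congrFun hab j
        simp only [Fin.rev_inj] at this
        rw [this]
    have h9 : ((win L k).filter (fun i => (fun j => Fin.rev (cell hv hH i j)) ∈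
        OutS v H (ff v ((k + 1) * L)) ((k + 1 + m) * L))).card =
        ((win L k).filter (fun i => cell hv hH i ∈ (Finset.univ.filter (fun a => (fun j => Fin.rev (a j)) ∈
        OutS v H (ff v ((k + 1) * L)) ((k + 1 + m) * L))))).card := by
      congr 1
      ext i
      simp only [Finset.mem_filter, Finset.mem_univ, true_and]
    have h10 : (2 : ℝ) * (WW v L k).card ≤ ((∑ b ∈ WW v L k, cnt v ((k + 1 + m) * L) b : ℕ) : ℝ) +
        (((WW v L k).filter (fun b => cnt v ((k + 1 + m) * L) b = 1)).card : ℝ) := by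
      exact_mod_cast h4
    have h11 : (((WW v L k).filter (fun b => cnt v ((k + 1 + m) * L) b = 1)).card : ℝ) ≤
        ((∑ a ∈ (Finset.univ.filter (fun a => (fun j => Fin.rev (a j)) ∈
        OutS v H (ff v ((k + 1) * L)) ((k + 1 + m) * L))), NN H L v k a : ℕ) : ℝ) := by
      rw [h6, ← h9]
      exact_mod_cast h5
    have h12 : (0 : ℝ) ≤ (1 + ε) * (L / (H : ℝ) ^ d) := by positivity
    have h13 : ((Finset.univ.filter (fun a : Fin d → Fin H => (fun j => Fin.rev (a j)) ∈
        OutS v H (ff v ((k + 1) * L)) ((k + 1 + m) * L))).card : ℝ) * ((1 + ε) * (L / (H : ℝ) ^ d)) ≤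
        (OutS v H (ff v ((k + 1) * L)) ((k + 1 + m) * L)).card * ((1 + ε) * (L / (H : ℝ) ^ d)) :=
      mul_le_mul_of_nonneg_right (by exact_mod_cast h8) h12
    linarith
  have h14 := Finset.sum_le_sum h3
  rw [← Finset.mul_sum, ← h1, Finset.sum_add_distrib, ← Finset.mul_sum] at h14
  -- the counts
  have h15 : (∑ k ∈ Finset.range R, ((∑ b ∈ WW v L k, cnt v ((k + 1 + m) * L) b : ℕ) : ℝ)) ≤
      ∑ j ∈ Finset.range (m + R),
        (((win L j).filter (fun i => ff v ((j - m) * L) ≤ assign v i)).card : ℝ) := by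
    exact_mod_cast sum_sum_cnt_le hv L m R
  rw [Finset.sum_range_add] at h15
  have h16 : (∑ j ∈ Finset.range m,
      (((win L j).filter (fun i => ff v ((j - m) * L) ≤ assign v i)).card : ℝ)) ≤ m * L := by
    calc _ ≤ ∑ j ∈ Finset.range m, (L : ℝ) := by
          apply Finset.sum_le_sum
          intro j _
          have := Finset.card_filter_le (win L j) (fun i => ff v ((j - m) * L) ≤ assign v i)
          rw [card_win] at this
          exact_mod_cast this
      _ = m * L := by simp
  have h17 : (∑ i ∈ Finset.range R,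
      (((win L (m + i)).filter (fun x => ff v ((m + i - m) * L) ≤ assign v x)).card : ℝ)) ≤
      R * L - (1 - ε) * (L / (H : ℝ) ^ d) *
        ∑ i ∈ Finset.range R, ((InS v H (ff v (i * L)) ((i + (m + 1)) * L)).card : ℝ) := by
    have h18 : ∀ i ∈ Finset.range R,
        (((win L (m + i)).filter (fun x => ff v ((m + i - m) * L) ≤ assign v x)).card : ℝ) ≤
        L - (1 - ε) * (L / (H : ℝ) ^ d) * ((InS v H (ff v (i * L)) ((i + (m + 1)) * L)).card : ℝ) := by
      intro i hi
      rw [Finset.mem_range] at hi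
      have h19 := card_add_le hv hH L (m + i) (ff v ((m + i - m) * L))
      have h20 := le_sum_NN hG (show m + i < K by omega) (InS v H (ff v ((m + i - m) * L)) ((m + i + 1) * L))
      have h21 : (((win L (m + i)).filter (fun x => ff v ((m + i - m) * L) ≤ assign v x)).card : ℝ) +
        ((∑ a ∈ InS v H (ff v ((m + i - m) * L)) ((m + i + 1) * L), NN H L v (m + i) a : ℕ) : ℝ) ≤ L := by
        exact_mod_cast h19
      have h22 : m + i - m = i := by omega
      have h23 : m + i + 1 = i + (m + 1) := by omega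
      rw [h22, h23] at h20 h21
      rw [h22]
      linarith
    refine le_trans (Finset.sum_le_sum h18) (le_of_eq ?_)
    rw [Finset.sum_sub_distrib, ← Finset.mul_sum]
    simp
  have h24 : (K : ℝ) * L = m * L + R * L := by
    rw [hK]; push_cast; ring
  linarith

theorem card_In_le (v : ℕ → Fin d → ℝ) (H β t : ℕ) : ((InS v H β t).card : ℝ) ≤ (H : ℝ) ^ d := by
  have := Finset.card_le_univ (InS v H β t)
  rw [Fintype.card_fun, Fintype.card_fin, Fintype.card_fin] at this
  exact_mod_cast this

theorem In_zero (v : ℕ → Fin d → ℝ) (H t : ℕ) : InS v H 0 t = ∅ := by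
  rw [Finset.eq_empty_iff_forall_notMem]
  intro a ha
  obtain ⟨b, hb, _⟩ := mem_InS.mp ha
  omega

/-- the sums which telescope -/
noncomputable def AA (v : ℕ → Fin d → ℝ) (H L K m : ℕ) : ℝ :=
  ∑ i ∈ Finset.range (K - m), ((InS v H (ff v ((i + 1) * L)) ((i + 1 + m) * L)).card : ℝ)

theorem AA_nonneg (v : ℕ → Fin d → ℝ) (H L K m : ℕ) : 0 ≤ AA v H L K m :=
  Finset.sum_nonneg (fun _ _ => Nat.cast_nonneg _)

theorem AA_le (v : ℕ → Fin d → ℝ) (H L K m : ℕ) : AA v H L K m ≤ K * (H : ℝ) ^ d := by
  have h1 : AA v H L K m ≤ ∑ i ∈ Finset.range (K - m), (H : ℝ) ^ d :=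
    Finset.sum_le_sum (fun i _ => card_In_le v H _ _)
  rw [Finset.sum_const, nsmul_eq_mul, Finset.card_range] at h1
  refine le_trans h1 (mul_le_mul_of_nonneg_right ?_ (by positivity))
  exact_mod_cast Nat.sub_le K m

theorem per_m' (hv : Items v) {H L K : ℕ} {ε : ℝ} (hH : 0 < H) (hε : 0 ≤ ε) (hε1 : ε ≤ 1)
    (hG : Good H L K ε v) (m : ℕ) (hm : m < K) :
    2 * (ff v (K * L) : ℝ) ≤ K * L + (L / (H : ℝ) ^ d) * (AA v H L K m - AA v H L K (m + 1))
      + 2 * ε * (K * L) + 2 * (K * L) * (d / H) + 2 * m * L := by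
  have hHr : (0 : ℝ) < H := by exact_mod_cast hH
  have hpos : (0 : ℝ) < (H : ℝ) ^ d := by positivity
  have hc : (0 : ℝ) ≤ L / (H : ℝ) ^ d := by positivity
  have hK : K = m + (K - m) := by omega
  have h1 := per_m hv hH hε hG m (K - m) hK
  -- the bins opened last
  have h2 : (ff v (K * L) : ℝ) ≤ ff v ((K - m) * L) + m * L := by
    have h3 : K * L = (K - m) * L + m * L := by
      rw [← add_mul]; congr 1; omega
    have h4 := ff_add_le v ((K - m) * L) (m * L)
    rw [← h3] at h4
    exact_mod_cast h4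
  -- outer cells
  have h5 : (∑ k ∈ Finset.range (K - m),
      ((OutS v H (ff v ((k + 1) * L)) ((k + 1 + m) * L)).card : ℝ)) ≤
      AA v H L K m + K * (d * (H : ℝ) ^ d / H) := by
    refine le_trans (Finset.sum_le_sum (fun k _ => card_Out_le hH _ _)) ?_
    rw [Finset.sum_add_distrib, Finset.sum_const, nsmul_eq_mul, Finset.card_range, AA]
    gcongr
    exact_mod_cast Nat.sub_le K m
  -- inner cells
  have h6 : (∑ i ∈ Finset.range (K - m),
      ((InS v H (ff v (i * L)) ((i + (m + 1)) * L)).card : ℝ)) = AA v H L K (m + 1) := by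
    have h7 : K - m = (K - (m + 1)) + 1 := by omega
    rw [h7, Finset.sum_range_succ', AA]
    have h8 : ff v (0 * L) = 0 := by simp [ff]
    rw [h8, In_zero]
    simp
  rw [h6] at h1
  have h9 := AA_le v H L K m
  have h10 := AA_le v H L K (m + 1)
  have h11 : L / (H : ℝ) ^ d * (K * (H : ℝ) ^ d) = K * L := by
    field_simp
  have h12 : L / (H : ℝ) ^ d * (K * (d * (H : ℝ) ^ d / H)) = K * L * (d / H) := by
    field_simp
  have h13 : (1 + ε) * (L / (H : ℝ) ^ d) * (∑ k ∈ Finset.range (K - m),
      ((OutS v H (ff v ((k + 1) * L)) ((k + 1 + m) * L)).card : ℝ)) ≤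
      (1 + ε) * (L / (H : ℝ) ^ d) * (AA v H L K m + K * (d * (H : ℝ) ^ d / H)) :=
    mul_le_mul_of_nonneg_left h5 (by positivity)
  have h14 : L / (H : ℝ) ^ d * AA v H L K m ≤ K * L := by
    rw [← h11]; exact mul_le_mul_of_nonneg_left h9 hc
  have h15 : L / (H : ℝ) ^ d * AA v H L K (m + 1) ≤ K * L := by
    rw [← h11]; exact mul_le_mul_of_nonneg_left h10 hc
  have h16 : ε * (L / (H : ℝ) ^ d * AA v H L K m) ≤ ε * (K * L) := mul_le_mul_of_nonneg_left h14 hε
  have h17 : ε * (L / (H : ℝ) ^ d * AA v H L K (m + 1)) ≤ ε * (K * L) :=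
    mul_le_mul_of_nonneg_left h15 hε
  have h18 : (1 + ε) * (K * L * (d / H)) ≤ 2 * (K * L * (d / H) : ℝ) :=
    mul_le_mul_of_nonneg_right (by linarith) (by positivity)
  have h19 : (1 + ε) * (L / (H : ℝ) ^ d) * (AA v H L K m + K * (d * (H : ℝ) ^ d / H)) =
      L / (H : ℝ) ^ d * AA v H L K m + ε * (L / (H : ℝ) ^ d * AA v H L K m) +
        (1 + ε) * (K * L * (d / H)) := by
    rw [← h12]; ring
  have h20 : (1 - ε) * (L / (H : ℝ) ^ d) * AA v H L K (m + 1) =
      L / (H : ℝ) ^ d * AA v H L K (m + 1) - ε * (L / (H : ℝ) ^ d * AA v H L K (m + 1)) := by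
    ring
  rw [h19] at h13
  rw [h20] at h1
  nlinarith

theorem t_DET : S_DET := by
  intro d H L K M ε v hH hK hM hMK hε hε1 hv hG
  have hHr : (0 : ℝ) < H := by exact_mod_cast hH
  have hMr : (0 : ℝ) < M := by exact_mod_cast hM
  have hKr : (0 : ℝ) < K := by exact_mod_cast hK
  have hpos : (0 : ℝ) < (H : ℝ) ^ d := by positivity
  have h1 := Finset.sum_le_sum (s := Finset.range M) (fun m hm =>
    per_m' hv hH hε hε1 hG m (lt_of_lt_of_le (Finset.mem_range.mp hm) hMK))
  have h2 : ∑ m ∈ Finset.range M, (K * L + (L / (H : ℝ) ^ d) * (AA v H L K m - AA v H L K (m + 1))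
      + 2 * ε * (K * L) + 2 * (K * L) * (d / H) + 2 * m * L : ℝ) ≤
      M * (K * L) + K * L + M * (2 * ε * (K * L)) + M * (2 * (K * L) * (d / H)) + 2 * M * M * L := by
    rw [Finset.sum_add_distrib, Finset.sum_add_distrib, Finset.sum_add_distrib,
      Finset.sum_add_distrib]
    have h10 : ∑ m ∈ Finset.range M, (L / (H : ℝ) ^ d * (AA v H L K m - AA v H L K (m + 1))) =
        L / (H : ℝ) ^ d * (AA v H L K 0 - AA v H L K M) := by
      rw [← Finset.mul_sum, Finset.sum_range_sub']
    rw [h10]
    simp only [Finset.sum_const, Finset.card_range, nsmul_eq_mul]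
    have h3 : L / (H : ℝ) ^ d * (AA v H L K 0 - AA v H L K M) ≤ K * L := by
      have h4 : L / (H : ℝ) ^ d * (K * (H : ℝ) ^ d) = K * L := by
        field_simp
      rw [← h4]
      apply mul_le_mul_of_nonneg_left _ (by positivity)
      linarith [AA_le v H L K 0, AA_nonneg v H L K M]
    have h5 : ∑ m ∈ Finset.range M, (2 * (m : ℝ) * L) ≤ 2 * M * M * L := by
      have h6 : ∀ m ∈ Finset.range M, 2 * (m : ℝ) * L ≤ 2 * M * L := by
        intro m hm
        have : (m : ℝ) ≤ M := by exact_mod_cast (Finset.mem_range.mp hm).le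
        have hL : (0 : ℝ) ≤ L := Nat.cast_nonneg L
        nlinarith
      refine le_trans (Finset.sum_le_sum h6) (le_of_eq ?_)
      rw [Finset.sum_const, nsmul_eq_mul, Finset.card_range]
      ring
    linarith
  have h7 := le_trans h1 h2
  rw [Finset.sum_const, nsmul_eq_mul, Finset.card_range] at h7
  have h8 : (M : ℝ) * (2 * (ff v (K * L) : ℝ)) ≤ M * ((K * L) * (1 + 1 / M + 2 * ε + 2 * d / H +
      2 * M / K)) := by
    refine le_trans h7 (le_of_eq ?_)
    field_simp
  have h9 := le_of_mul_le_mul_left h8 hMr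
  refine le_trans h9 ?_
  apply mul_le_mul_of_nonneg_left _ (by positivity)
  have : (0 : ℝ) ≤ 1 / K := by positivity
  linarith

end Pool.Agent.Q248.FF
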