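import Pool.Agent.Q248.FF.Opt

/-!
# First Fit: the main theorem from the parts
-/

set_option autoImplicit false

open MeasureTheory ProbabilityTheory Filter

namespace Pool.Agent.Q248.FF

theorem ratio_le (hCMP : S_CMP) {d N L n : ℕ} {v : ℕ → Fin d → ℝ} (hd : 0 < d) (hN : 2 ≤ N)
    (hL : N ≤ L) (hv : Items v) (hG : Good N L (N * N) (1 / N) v) (h1 : N * N * L ≤ n)
    (h2 : n ≤ N * N * L + N * N) :
    (ff v n : ℝ) / (opt v n : ℝ) ≤
      (1 + (8 + 2 * d) / N) / ((1 - 1 / N) * (1 - 1 / N)) := by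
  have hNr : (2 : ℝ) ≤ N := by exact_mod_cast hN
  have hNpos : (0 : ℝ) < N := by linarith
  have hLr : (N : ℝ) ≤ L := by exact_mod_cast hL
  have hLpos : (0 : ℝ) < L := by linarith
  have hdet := t_DET d N L (N * N) N (1 / N) v (by omega) (by positivity) (by omega)
    (Nat.le_mul_self N) (by positivity)
    (by rw [div_le_one hNpos]; linarith) hv hG
  have hopt := t_OPT d N L (N * N) n (1 / N) v hd (by omega) hv hG h1
  have hff : (ff v n : ℝ) ≤ ff v (N * N * L) + N * N := by
    have h3 : ff v n ≤ ff v (N * N * L + N * N) := ff_mono hv h2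
    have h4 := ff_add_le v (N * N * L) (N * N)
    have h5 := le_trans h3 h4
    exact_mod_cast h5
  push_cast at hdet hopt
  have hinv : (1 : ℝ) / N ≤ 1 / 2 := by
    rw [div_le_div_iff₀ hNpos (by norm_num)]; linarith
  have hθ : (0 : ℝ) < (1 - 1 / N) * (1 - 1 / N) := by nlinarith
  have hKL : (0 : ℝ) < N * N * L := by positivity
  have hnum : 2 * (ff v n : ℝ) ≤ (N * N * L) * (1 + (8 + 2 * d) / N) := by
    have h6 : (2 : ℝ) * (N * N) ≤ (N * N * L) * (2 / N) := by
      have : (N * N * L : ℝ) * (2 / N) = 2 * (N * L) := by field_simp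
      rw [this]
      nlinarith
    have h7 : (1 : ℝ) + 1 / N + 1 / (N * N) + 2 * (1 / N) + 2 * d / N + 2 * N / (N * N) + 2 / N ≤
        1 + (8 + 2 * d) / N := by
      have h8 : (1 : ℝ) / (N * N) ≤ 1 / N := by
        apply one_div_le_one_div_of_le hNpos
        nlinarith
      have h9 : (2 : ℝ) * N / (N * N) = 2 / N := by field_simp
      have h10 : ((8 : ℝ) + 2 * d) / N = 8 / N + 2 * d / N := by ring
      have h11 : (1 : ℝ) / N ≥ 0 := by positivity
      have h12 : (2 : ℝ) / N = 2 * (1 / N) := by ring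
      have h13 : (8 : ℝ) / N = 8 * (1 / N) := by ring
      rw [h9, h10, h12, h13]
      linarith
    have h14 := mul_le_mul_of_nonneg_left h7 hKL.le
    nlinarith
  have h15 : (ff v n : ℝ) / (opt v n : ℝ) = (2 * (ff v n : ℝ)) / (2 * (opt v n : ℝ)) := by
    rw [mul_div_mul_left _ _ (by norm_num)]
  rw [h15]
  have h16 : ((1 : ℝ) + (8 + 2 * d) / N) / ((1 - 1 / N) * (1 - 1 / N)) =
      ((N * N * L) * (1 + (8 + 2 * d) / N)) / ((N * N * L) * ((1 - 1 / N) * (1 - 1 / N))) := by
    rw [mul_div_mul_left _ _ hKL.ne']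
  rw [h16]
  apply div_le_div₀ (by positivity) hnum (by positivity) hopt

theorem t_MAIN (hCMP : S_CMP) (hPROB : S_PROB) (hMEAS : S_MEAS) : S_MAIN := by
  intro d hd Ω mΩ P hP X hX hind hlaw
  -- items a.e.
  have hItems : ∀ᵐ ω ∂P, Items (fun i => X i ω) := by
    have h1 : ∀ᵐ x ∂((volume : Measure (Fin d → ℝ)).restrict (Set.Icc 0 1)),
        ∀ j, 0 ≤ x j ∧ x j < 1 := by
      have h2 : ∀ᵐ x ∂((volume : Measure (Fin d → ℝ)).restrict (Set.Icc 0 1)), x ∈ Set.Icc 0 1 :=
        ae_restrict_mem measurableSet_Icc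
      have h3 : ∀ j, ∀ᵐ x ∂((volume : Measure (Fin d → ℝ)).restrict (Set.Icc 0 1)), x j ≠ 1 := by
        intro j
        apply ae_restrict_of_ae
        rw [volume_pi]
        exact compl_mem_ae_iff.2 (Measure.pi_hyperplane (fun _ : Fin d => (volume : Measure ℝ)) j 1)
      filter_upwards [h2, ae_all_iff.mpr h3] with x hx hx2 j
      exact ⟨hx.1 j, lt_of_le_of_ne (hx.2 j) (hx2 j)⟩
    have h4 : ∀ i, ∀ᵐ ω ∂P, ∀ j, 0 ≤ X i ω j ∧ X i ω j < 1 := by
      intro i
      have h5 := h1
      rw [← hlaw i] at h5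
      exact ae_of_ae_map (hX i).aemeasurable h5
    filter_upwards [ae_all_iff.mpr h4] with ω hω i j
    exact hω i j
  have hr_meas : ∀ n, Measurable (fun ω => (ff (fun i => X i ω) n : ℝ) /
      (opt (fun i => X i ω) n : ℝ)) := by
    intro n
    have h1 := hMEAS d Ω mΩ X hX n
    exact (measurable_from_nat.comp h1.1).div (measurable_from_nat.comp h1.2)
  have hr1 : ∀ n, 0 < n → ∀ v : ℕ → Fin d → ℝ, Items v →
      1 ≤ (ff v n : ℝ) / (opt v n : ℝ) ∧ (ff v n : ℝ) / (opt v n : ℝ) ≤ 2 * d + 1 := by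
    intro n hn v hv
    obtain ⟨h1, h2, h3⟩ := hCMP d n v hv
    have h4 : (1 : ℝ) ≤ opt v n := by exact_mod_cast h3 hn
    have h5 : (opt v n : ℝ) ≤ ff v n := by exact_mod_cast h1
    have h6 : (ff v n : ℝ) ≤ 2 * d * opt v n + 1 := by exact_mod_cast h2
    constructor
    · rw [le_div_iff₀ (by linarith)]; linarith
    · rw [div_le_iff₀ (by linarith)]
      nlinarith
  have hint : ∀ n, 0 < n → Integrable (fun ω => (ff (fun i => X i ω) n : ℝ) /
      (opt (fun i => X i ω) n : ℝ)) P := by
    intro n hn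
    refine Integrable.of_bound (hr_meas n).aestronglyMeasurable (2 * d + 1) ?_
    filter_upwards [hItems] with ω hω
    obtain ⟨h1, h2⟩ := hr1 n hn _ hω
    rw [Real.norm_eq_abs, abs_of_nonneg (by linarith)]
    exact h2
  have hlow : ∀ n, 0 < n → 1 ≤ ∫ ω, (ff (fun i => X i ω) n : ℝ) /
      (opt (fun i => X i ω) n : ℝ) ∂P := by
    intro n hn
    have h1 : ∫ _ω, (1 : ℝ) ∂P ≤ ∫ ω, (ff (fun i => X i ω) n : ℝ) /
        (opt (fun i => X i ω) n : ℝ) ∂P := by
      apply integral_mono_ae (integrable_const 1) (hint n hn)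
      filter_upwards [hItems] with ω hω
      exact (hr1 n hn _ hω).1
    simpa using h1
  have hup : ∀ δ : ℝ, 0 < δ → ∀ᶠ n : ℕ in atTop, ∫ ω, (ff (fun i => X i ω) n : ℝ) /
      (opt (fun i => X i ω) n : ℝ) ∂P ≤ 1 + δ := by
    intro δ hδ
    -- the parameter N
    have hlim : Tendsto (fun N : ℕ => (1 + (8 + 2 * (d : ℝ)) / N) / ((1 - 1 / N) * (1 - 1 / N)))
        atTop (nhds ((1 + 0) / ((1 - 0) * (1 - 0)))) := by
      have h0 : Tendsto (fun N : ℕ => (1 : ℝ) / N) atTop (nhds 0) :=
        tendsto_const_div_atTop_nhds_zero_nat 1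
      have h1 : Tendsto (fun N : ℕ => (8 + 2 * (d : ℝ)) / N) atTop (nhds 0) :=
        tendsto_const_div_atTop_nhds_zero_nat _
      apply Tendsto.div
      · exact tendsto_const_nhds.add h1
      · exact (tendsto_const_nhds.sub h0).mul (tendsto_const_nhds.sub h0)
      · norm_num
    have hlim1 : ∀ᶠ N : ℕ in atTop,
        (1 + (8 + 2 * (d : ℝ)) / N) / ((1 - 1 / N) * (1 - 1 / N)) < 1 + δ / 2 := by
      apply hlim.eventually_lt_const
      norm_num
      linarith
    obtain ⟨N, hN1, hN2⟩ := (hlim1.and (eventually_ge_atTop 2)).exists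
    have hNN : 0 < N * N := by positivity
    have hNpos : (0 : ℝ) < N := by
      have : (2 : ℝ) ≤ N := by exact_mod_cast hN2
      linarith
    have hp := hPROB d Ω mΩ P hP X hX hind hlaw N (N * N) (1 / N) (by omega) hNN (by positivity)
    have hp2 : ∀ᶠ L : ℕ in atTop, P {ω | ¬ Good N L (N * N) (1 / N) (fun i => X i ω)} <
        ENNReal.ofReal (δ / 2 / (2 * d + 1)) := by
      apply hp.eventually_lt_const
      rw [ENNReal.ofReal_pos]
      positivity
    have hdiv : Tendsto (fun n : ℕ => n / (N * N)) atTop atTop :=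
      Nat.tendsto_div_const_atTop hNN.ne'
    filter_upwards [hdiv.eventually hp2, hdiv.eventually (eventually_ge_atTop N),
      eventually_gt_atTop 0] with n hn1 hn2 hn3
    set L := n / (N * N) with hLdef
    set bad : Set Ω := {ω | ¬ Good N L (N * N) (1 / N) (fun i => X i ω)} with hbad
    have hbound : ∀ᵐ ω ∂P, (ff (fun i => X i ω) n : ℝ) / (opt (fun i => X i ω) n : ℝ) ≤
        (1 + δ / 2) + (toMeasurable P bad).indicator (fun _ => (2 * (d : ℝ) + 1)) ω := by
      filter_upwards [hItems] with ω hω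
      by_cases hb : ω ∈ toMeasurable P bad
      · rw [Set.indicator_of_mem hb]
        have := (hr1 n hn3 _ hω).2
        linarith
      · rw [Set.indicator_of_notMem hb, add_zero]
        have hgood : Good N L (N * N) (1 / N) (fun i => X i ω) := by
          by_contra hc
          exact hb (subset_toMeasurable P bad hc)
        have h1 : N * N * L ≤ n := Nat.mul_div_le n (N * N)
        have h2 : n ≤ N * N * L + N * N := by
          have := Nat.lt_mul_div_succ n hNN
          rw [← hLdef, mul_add, mul_one] at this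
          exact this.le
        exact (ratio_le hCMP hd hN2 hn2 hω hgood h1 h2).trans hN1.le
    have hI : Integrable (fun ω => (1 + δ / 2) +
        (toMeasurable P bad).indicator (fun _ => (2 * (d : ℝ) + 1)) ω) P :=
      (integrable_const _).add ((integrable_const _).indicator (measurableSet_toMeasurable P bad))
    refine le_trans (integral_mono_ae (hint n hn3) hI hbound) ?_
    rw [integral_add (integrable_const _)
      ((integrable_const _).indicator (measurableSet_toMeasurable P bad)),
      integral_indicator_const _ (measurableSet_toMeasurable P bad)]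
    have h3 : P.real (toMeasurable P bad) ≤ δ / 2 / (2 * d + 1) := by
      rw [Measure.real, measure_toMeasurable]
      have := ENNReal.toReal_mono ENNReal.ofReal_ne_top hn1.le
      rwa [ENNReal.toReal_ofReal (by positivity)] at this
    have h4 : P.real (toMeasurable P bad) * (2 * (d : ℝ) + 1) ≤ δ / 2 := by
      calc _ ≤ δ / 2 / (2 * d + 1) * (2 * (d : ℝ) + 1) :=
            mul_le_mul_of_nonneg_right h3 (by positivity)
        _ = δ / 2 := by field_simp
    simp only [integral_const, probReal_univ, smul_eq_mul, one_mul]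
    linarith
  rw [tendsto_order]
  constructor
  · intro a ha
    filter_upwards [eventually_gt_atTop 0] with n hn
    linarith [hlow n hn]
  · intro a ha
    filter_upwards [hup ((a - 1) / 2) (by linarith)] with n hn
    linarith

end Pool.Agent.Q248.FF
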