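import Pool.Agent.Q248.FF.Det

/-!
# First Fit: the lower bound of the optimum
-/

set_option autoImplicit false

open MeasureTheory ProbabilityTheory Filter

namespace Pool.Agent.Q248.FF

theorem opt_nonempty {d : ℕ} (v : ℕ → Fin d → ℝ) (hv : Items v) (n : ℕ) :
    {k : ℕ | ∃ g : Fin n → Fin k, ∀ b j, ∑ i : Fin n, (if g i = b then v i j else 0) ≤ 1}.Nonempty := by
  refine ⟨n, fun i => i, ?_⟩
  intro b j
  rw [Finset.sum_ite_eq' Finset.univ b (fun i : Fin n => v i j)]
  simp only [Finset.mem_univ, if_true]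
  exact (hv _ j).2.le

theorem sum_le_opt {d : ℕ} (v : ℕ → Fin d → ℝ) (hv : Items v) (n : ℕ) (j : Fin d) :
    ∑ i ∈ Finset.range n, v i j ≤ opt v n := by
  obtain ⟨g, hg⟩ := Nat.sInf_mem (opt_nonempty v hv n)
  rw [← Fin.sum_univ_eq_sum_range (fun i => v i j) n]
  have h1 : ∑ i : Fin n, v i j = ∑ b, ∑ i : Fin n, (if g i = b then v i j else 0) := by
    rw [Finset.sum_comm]
    apply Finset.sum_congr rfl
    intro i _
    simp
  rw [h1]
  refine le_trans (Finset.sum_le_sum (fun b _ => hg b j)) ?_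
  simp [opt]

theorem sum_cells (d H : ℕ) (hH : 0 < H) (j : Fin d) :
    2 * ∑ a : Fin d → Fin H, ((a j : ℕ) : ℝ) = (H : ℝ) ^ d * (H - 1) := by
  have h1 : ∑ a : Fin d → Fin H, ((a j : ℕ) : ℝ) =
      ∑ a : Fin d → Fin H, (((Fin.rev (a j)) : ℕ) : ℝ) := by
    refine Finset.sum_nbij' (fun a i => Fin.rev (a i)) (fun a i => Fin.rev (a i)) ?_ ?_ ?_ ?_ ?_
    · intro a _; exact Finset.mem_univ _
    · intro a _; exact Finset.mem_univ _
    · intro a _; ext i; simp
    · intro a _; ext i; simp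
    · intro a _; simp
  have h2 : ∀ a : Fin d → Fin H, ((a j : ℕ) : ℝ) + (((Fin.rev (a j)) : ℕ) : ℝ) = H - 1 := by
    intro a
    rw [Fin.val_rev, Nat.cast_sub (a j).2]
    push_cast
    ring
  rw [two_mul]
  conv_lhs => rw [h1]
  nth_rewrite 1 [← h1]
  rw [← Finset.sum_add_distrib, Finset.sum_congr rfl (fun a _ => h2 a), Finset.sum_const,
    Finset.card_univ, Fintype.card_fun, Fintype.card_fin, Fintype.card_fin, nsmul_eq_mul]
  push_cast
  ring

theorem t_OPT : S_OPT := by
  classical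
  intro d H L K n ε v hd hH hv hG hn
  have hHr : (0 : ℝ) < H := by exact_mod_cast hH
  have hpos : (0 : ℝ) < (H : ℝ) ^ d := by positivity
  let j : Fin d := ⟨0, hd⟩
  have h1 : ∑ i ∈ Finset.range (K * L), v i j ≤ ∑ i ∈ Finset.range n, v i j :=
    Finset.sum_le_sum_of_subset_of_nonneg (Finset.range_subset_range.mpr hn)
      (fun i _ _ => (hv i j).1)
  have h2 := sum_le_opt v hv n j
  have h3 : ∀ k ∈ Finset.range K, (1 - ε) * (L / (H : ℝ) ^ d) * ((H : ℝ) ^ d * (H - 1) / 2 / H) ≤
      ∑ i ∈ win L k, v i j := by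
    intro k hk
    rw [Finset.mem_range] at hk
    have h4 : ∑ i ∈ win L k, v i j = ∑ a : Fin d → Fin H,
        ∑ i ∈ (win L k).filter (fun i => cell hv hH i = a), v i j :=
      (Finset.sum_fiberwise (win L k) (cell hv hH) (fun i => v i j)).symm
    rw [h4]
    have h5 : (H : ℝ) ^ d * (H - 1) / 2 / H = ∑ a : Fin d → Fin H, ((a j : ℕ) : ℝ) / H := by
      rw [← Finset.sum_div, ← sum_cells d H hH j]
      ring
    rw [h5, Finset.mul_sum]
    apply Finset.sum_le_sum
    intro a _
    have h6 : (NN H L v k a : ℝ) * ((a j : ℕ) / H) ≤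
        ∑ i ∈ (win L k).filter (fun i => cell hv hH i = a), v i j := by
      have h7 : NN H L v k a = ((win L k).filter (fun i => cell hv hH i = a)).card := by
        rw [NN]
        congr 1
        ext i
        simp only [Finset.mem_filter, win]
        rw [← cell_eq_iff hv hH i a]
      rw [h7, ← nsmul_eq_mul, ← Finset.sum_const]
      apply Finset.sum_le_sum
      intro i hi
      have h8 := (Finset.mem_filter.mp hi).2
      have h9 := (cell_le hv hH i j).1
      rw [h8] at h9
      exact h9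
    refine le_trans (mul_le_mul_of_nonneg_right ?_ (by positivity)) h6
    have := (abs_le.mp (hG k hk a)).1
    linarith
  have h10 : ∑ i ∈ Finset.range (K * L), v i j = ∑ k ∈ Finset.range K, ∑ i ∈ win L k, v i j := by
    clear h1 hn hG h2 h3
    induction K with
    | zero => simp
    | succ K ih =>
      rw [Finset.sum_range_succ, ← ih, win, ← Finset.sum_range_add_sum_Ico]
      exact Nat.mul_le_mul_right L (Nat.le_succ K)
  have h11 := Finset.sum_le_sum h3
  rw [← h10, Finset.sum_const, nsmul_eq_mul, Finset.card_range] at h11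
  have h12 : (K * L : ℝ) * ((1 - ε) * (1 - 1 / H)) =
      2 * (K * ((1 - ε) * (L / (H : ℝ) ^ d) * ((H : ℝ) ^ d * (H - 1) / 2 / H))) := by
    field_simp
  rw [h12]
  linarith

end Pool.Agent.Q248.FF
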