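import Pool.Agent.Q248.FF.Stm

/-!
# First Fit: the recursion
-/

set_option autoImplicit false

open MeasureTheory ProbabilityTheory Filter

namespace Pool.Agent.Q248.FF

variable {d : ℕ}

theorem load_eq (v : ℕ → Fin d → ℝ) (t b : ℕ) (j : Fin d) :
    (∑ i : Fin t, if assign v i = b then v i j else 0) = load v t b j := by
  rw [load, Finset.sum_filter, Fin.sum_univ_eq_sum_range (fun i => if assign v i = b then v i j else 0) t]

theorem assign_eq (v : ℕ → Fin d → ℝ) (t : ℕ) :
    assign v t = sInf {b : ℕ | ∀ j, load v t b j + v t j ≤ 1} := by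
  rw [assign]
  congr 1
  ext b
  simp only [Set.mem_setOf_eq]
  constructor
  · intro h j
    rw [← load_eq]
    exact h j
  · intro h j
    rw [load_eq]
    exact h j

theorem load_of_notMem (v : ℕ → Fin d → ℝ) (t b : ℕ) (j : Fin d)
    (hb : b ∉ (Finset.range t).image (assign v)) : load v t b j = 0 := by
  rw [load, Finset.filter_eq_empty_iff.mpr]
  · simp
  · intro i hi h
    exact hb (Finset.mem_image.mpr ⟨i, hi, h⟩)

theorem mem_of_notMem (v : ℕ → Fin d → ℝ) (hv : Items v) (t b : ℕ)
    (hb : b ∉ (Finset.range t).image (assign v)) : ∀ j, load v t b j + v t j ≤ 1 := by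
  intro j
  rw [load_of_notMem v t b j hb, zero_add]
  exact (hv t j).2.le

theorem set_nonempty (v : ℕ → Fin d → ℝ) (hv : Items v) (t : ℕ) :
    {b : ℕ | ∀ j, load v t b j + v t j ≤ 1}.Nonempty := by
  obtain ⟨b, hb⟩ := Infinite.exists_notMem_finset ((Finset.range t).image (assign v))
  exact ⟨b, mem_of_notMem v hv t b hb⟩

theorem t_REC : S_REC := by
  intro d v hv
  refine ⟨?_, ?_, ?_⟩
  · intro t
    have := Nat.sInf_mem (set_nonempty v hv t)
    rw [← assign_eq] at this
    exact this
  · intro t b hb
    rw [assign_eq] at hb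
    have := Nat.notMem_of_lt_sInf hb
    simp only [Set.mem_setOf_eq, not_forall, not_le] at this
    exact this
  · have key : ∀ t, ∃ m, (Finset.range t).image (assign v) = Finset.range m := by
      intro t
      induction t with
      | zero => exact ⟨0, by simp⟩
      | succ t ih =>
        obtain ⟨m, hm⟩ := ih
        rw [Finset.range_add_one, Finset.image_insert, hm]
        have h1 : assign v t ≤ m := by
          rw [assign_eq]
          apply Nat.sInf_le
          apply mem_of_notMem v hv
          rw [hm]
          simp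
        rcases h1.lt_or_eq with h | h
        · exact ⟨m, Finset.insert_eq_of_mem (Finset.mem_range.mpr h)⟩
        · exact ⟨m + 1, by rw [h, Finset.range_add_one]⟩
    intro t
    obtain ⟨m, hm⟩ := key t
    rw [ff, hm, Finset.card_range]

end Pool.Agent.Q248.FF
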