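import Mathlib

/-!
# First Fit for vector bin packing: definitions and statements

For a sequence `v` of items in `[0,1]^d`, `assign v i` is the number (counting from `0` in the order
of opening) of the bin that First Fit gives to the item `v i`: the least `b` such that the items
`v i'`, `i' < i`, already put into bin `b`, together with `v i`, have sum at most `1` in every
coordinate. A bin which is still empty always has room, so a new bin is opened exactly when none of
the bins in use has room.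
-/

set_option autoImplicit false

open MeasureTheory ProbabilityTheory Filter

namespace Pool.Agent.Q248.FF

/-- the bin which First Fit gives to the item number `t` -/
noncomputable def assign {d : ℕ} (v : ℕ → Fin d → ℝ) : ℕ → ℕ
  | t => sInf {b : ℕ | ∀ j, (∑ i : Fin t, if assign v i = b then v i j else 0) + v t j ≤ 1}
  decreasing_by exact i.isLt

/-- the number of bins which First Fit uses for the items `v 0, ..., v (n - 1)` -/
noncomputable def ff {d : ℕ} (v : ℕ → Fin d → ℝ) (n : ℕ) : ℕ :=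
  ((Finset.range n).image (assign v)).card

/-- the least number of bins in a packing of the items `v 0, ..., v (n - 1)` -/
noncomputable def opt {d : ℕ} (v : ℕ → Fin d → ℝ) (n : ℕ) : ℕ :=
  sInf {k : ℕ | ∃ g : Fin n → Fin k, ∀ b j, ∑ i : Fin n, (if g i = b then v i j else 0) ≤ 1}

/-- `v` is a sequence of items -/
def Items {d : ℕ} (v : ℕ → Fin d → ℝ) : Prop := ∀ i j, 0 ≤ v i j ∧ v i j < 1

/-- the load of bin `b` before the arrival of item `t` -/
noncomputable def load {d : ℕ} (v : ℕ → Fin d → ℝ) (t b : ℕ) (j : Fin d) : ℝ :=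
  ∑ i ∈ (Finset.range t).filter (fun i => assign v i = b), v i j

/-- the number of items of the window `[k L, (k+1) L)` in the cell `a` of mesh `1 / H` -/
noncomputable def NN {d : ℕ} (H L : ℕ) (v : ℕ → Fin d → ℝ) (k : ℕ) (a : Fin d → Fin H) : ℕ :=
  by
    classical
    exact ((Finset.Ico (k * L) ((k + 1) * L)).filter
      (fun i => ∀ j, ((a j : ℕ) : ℝ) ≤ H * v i j ∧ H * v i j < ((a j : ℕ) : ℝ) + 1)).card

/-- all windows `k < K` and all cells contain about the right number of items -/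
def Good {d : ℕ} (H L K : ℕ) (ε : ℝ) (v : ℕ → Fin d → ℝ) : Prop :=
  ∀ k < K, ∀ a : Fin d → Fin H, |(NN H L v k a : ℝ) - L / (H : ℝ) ^ d| ≤ ε * (L / (H : ℝ) ^ d)

/-- recursion and simple facts for First Fit -/
def S_REC : Prop := ∀ (d : ℕ) (v : ℕ → Fin d → ℝ), Items v →
  (∀ t j, load v t (assign v t) j + v t j ≤ 1) ∧
  (∀ t b, b < assign v t → ∃ j, 1 < load v t b j + v t j) ∧
  (∀ t, (Finset.range t).image (assign v) = Finset.range (ff v t))

/-- the deterministic bound on a good sequence -/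
def S_DET : Prop := ∀ (d H L K M : ℕ) (ε : ℝ) (v : ℕ → Fin d → ℝ), 0 < H → 0 < K → 0 < M →
  M ≤ K → 0 ≤ ε → ε ≤ 1 → Items v → Good H L K ε v →
  2 * (ff v (K * L) : ℝ) ≤
    (K * L) * (1 + 1 / M + 1 / K + 2 * ε + 2 * d / H + 2 * M / K)

/-- the optimum is large on a good sequence -/
def S_OPT : Prop := ∀ (d H L K n : ℕ) (ε : ℝ) (v : ℕ → Fin d → ℝ), 0 < d → 0 < H →
  Items v → Good H L K ε v → K * L ≤ n →
  (K * L) * ((1 - ε) * (1 - 1 / H)) ≤ 2 * (opt v n : ℝ)

/-- comparison of First Fit and the optimum -/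
def S_CMP : Prop := ∀ (d n : ℕ) (v : ℕ → Fin d → ℝ), Items v →
  opt v n ≤ ff v n ∧ ff v n ≤ 2 * d * opt v n + 1 ∧ (0 < n → 0 < opt v n)

/-- good events have probability tending to one -/
def S_PROB : Prop := ∀ (d : ℕ) (Ω : Type) (_ : MeasurableSpace Ω) (P : Measure Ω)
  (_ : IsProbabilityMeasure P) (X : ℕ → Ω → Fin d → ℝ), (∀ i, Measurable (X i)) →
  iIndepFun X P → (∀ i, P.map (X i) = volume.restrict (Set.Icc 0 1)) →
  ∀ (H K : ℕ) (ε : ℝ), 0 < H → 0 < K → 0 < ε →
  Tendsto (fun L : ℕ => P {ω | ¬ Good H L K ε (fun i => X i ω)}) atTop (nhds 0)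

/-- measurability -/
def S_MEAS : Prop := ∀ (d : ℕ) (Ω : Type) (_ : MeasurableSpace Ω) (X : ℕ → Ω → Fin d → ℝ),
  (∀ i, Measurable (X i)) → ∀ n,
  Measurable (fun ω => ff (fun i => X i ω) n) ∧ Measurable (fun ω => opt (fun i => X i ω) n)

/-- **the main theorem** -/
def S_MAIN : Prop := ∀ (d : ℕ), 0 < d → ∀ (Ω : Type) (_ : MeasurableSpace Ω) (P : Measure Ω)
  (_ : IsProbabilityMeasure P) (X : ℕ → Ω → Fin d → ℝ), (∀ i, Measurable (X i)) →
  iIndepFun X P → (∀ i, P.map (X i) = volume.restrict (Set.Icc 0 1)) →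
  Tendsto (fun n : ℕ => ∫ ω, ((ff (fun i => X i ω) n : ℝ) / (opt (fun i => X i ω) n : ℝ)) ∂P)
    atTop (nhds 1)

end Pool.Agent.Q248.FF
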